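import Pool.Agent.TH340.SH.Tg

/-!
# MP_f940ca_an : eigenvalues of `S_h f = h̄ · T f`

`Ω` is any bounded open subset of the plane, `T` the canonical solution operator of `∂/∂z̄` on
`L²(Ω)`.

1. If `h` is bounded holomorphic on `Ω`, all periods of `h` are real multiples of one number `c ≠ 0`
   and some period is not zero, then `S_h` has an eigenvalue on each of the two open half lines
   `{t · c̄ : t > 0}` and `{t · c̄ : t < 0}`.
2. If moreover `k, κ₁, …, κ_m` are arbitrary bounded holomorphic functions on `Ω`, then for almost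
   every `(η, ζ) ∈ ℂᵐ × ℂ` the operator `S_{k + ζ h + ∑ η_j κ_j}` has a nonzero eigenvalue.
3. In particular, for `w₀` outside the closure of `Ω` such that `1 / (z - w₀)` has a nonzero period,
   `w₁, …, w_m` outside the closure and every bounded holomorphic `k`, the operator of
   `k + c₀ / (z - w₀) + ∑ c_j / (z - w_j)` has a nonzero eigenvalue for almost every `c ∈ ℂ^{m+1}`.
-/

set_option autoImplicit false

open MeasureTheory Set

namespace Pool.Agent.Results.MP_f940ca_an.AlmostEveryPeriodVector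

/-- `∂χ/∂z̄ = (∂χ/∂x + i ∂χ/∂y) / 2` -/
noncomputable def dbar (χ : ℂ → ℂ) (z : ℂ) : ℂ :=
  (fderiv ℝ χ z 1 + Complex.I * fderiv ℝ χ z Complex.I) / 2

/-- `u` is the canonical solution `T f`: it lies in `L²(Ω)`, solves `∂u/∂z̄ = f` in the sense of
distributions on `Ω`, and is orthogonal to all holomorphic functions in `L²(Ω)`. -/
structure IsCanonicalSolution (Ω : Set ℂ) (f u : ℂ → ℂ) : Prop where
  memLp : MemLp u 2 (volume.restrict Ω)
  weak : ∀ χ : ℂ → ℂ, ContDiff ℝ (⊤ : ℕ∞) χ → HasCompactSupport χ → tsupport χ ⊆ Ω →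
    ∫ z in Ω, u z * dbar χ z = - ∫ z in Ω, f z * χ z
  orth : ∀ G : ℂ → ℂ, DifferentiableOn ℂ G Ω → MemLp G 2 (volume.restrict Ω) →
    ∫ z in Ω, u z * (starRingEnd ℂ) (G z) = 0

/-- `lam` is an eigenvalue of `S_h : f ↦ h̄ · T f` on `L²(Ω)`: there is `f ≠ 0` in `L²(Ω)` with
`h̄ · T f = lam • f`. -/
def IsEigenvalue (Ω : Set ℂ) (h : ℂ → ℂ) (lam : ℂ) : Prop :=
  ∃ f u : ℂ → ℂ, MemLp f 2 (volume.restrict Ω) ∧ (¬ f =ᵐ[volume.restrict Ω] 0) ∧
    IsCanonicalSolution Ω f u ∧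
    (fun z => (starRingEnd ℂ) (h z) * u z) =ᵐ[volume.restrict Ω] fun z => lam * f z

/-- bounded holomorphic function on `Ω` -/
def BddHol (Ω : Set ℂ) (h : ℂ → ℂ) : Prop :=
  DifferentiableOn ℂ h Ω ∧ ∃ K : ℝ, ∀ z ∈ Ω, ‖h z‖ ≤ K

/-- `a` is a period of `h`: the integral of `h dz` along a `C¹` closed curve in `Ω` -/
def IsPeriod (Ω : Set ℂ) (h : ℂ → ℂ) (a : ℂ) : Prop :=
  ∃ γ γ' : ℝ → ℂ, (∀ t ∈ Icc (0 : ℝ) 1, HasDerivAt γ (γ' t) t) ∧ ContinuousOn γ' (Icc 0 1) ∧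
    (∀ t ∈ Icc (0 : ℝ) 1, γ t ∈ Ω) ∧ γ 0 = γ 1 ∧ a = ∫ t in (0 : ℝ)..1, h (γ t) * γ' t

theorem BddHol.bd {Ω : Set ℂ} {h : ℂ → ℂ} (H : BddHol Ω h) : ∃ K : ℝ, 0 ≤ K ∧ ∀ z ∈ Ω, ‖h z‖ ≤ K := by
  obtain ⟨K, hK⟩ := H.2
  exact ⟨|K|, abs_nonneg K, fun z hz => (hK z hz).trans (le_abs_self K)⟩

theorem div_period {Ω : Set ℂ} {h : ℂ → ℂ} {c a : ℂ} (ha : IsPeriod Ω (fun z => h z / c) a) (hc : c ≠ 0) :
    IsPeriod Ω h (c * a) := by
  obtain ⟨γ, γ', h1, h2, h3, h4, rfl⟩ := ha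
  refine ⟨γ, γ', h1, h2, h3, h4, ?_⟩
  rw [← intervalIntegral.integral_const_mul]
  congr 1
  funext t
  field_simp

/-- the imaginary part of a primitive of `h / c` is single valued -/
theorem prim_of_periods {Ω : Set ℂ} (hΩ : IsOpen Ω) {h : ℂ → ℂ} {c : ℂ} (hh : DifferentiableOn ℂ h Ω)
    (hc : c ≠ 0) (hper : ∀ a, IsPeriod Ω h a → ∃ r : ℝ, a = r * c) :
    ∃ b : ℂ → ℝ, Pool.Agent.TH340.SH.Prim Ω (fun z => h z / c) b := by
  refine Pool.Agent.TH340.SH.exists_prim hΩ (hh.div_const c) ?_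
  rintro z a ⟨γ, γ', hc1, h0, h1, ha⟩
  have hp : IsPeriod Ω (fun z => h z / c) a :=
    ⟨γ, γ', hc1.deriv, hc1.cont, hc1.mem, h0.trans h1.symm, ha⟩
  obtain ⟨r, hr⟩ := hper _ (div_period hp hc)
  have : a = r := by
    have h2 : c * a = c * r := by rw [hr]; ring
    exact mul_left_cancel₀ hc h2
  rw [this, Complex.ofReal_im]

theorem half (Ω : Set ℂ) (hΩ : IsOpen Ω) (hΩb : Bornology.IsBounded Ω) {h : ℂ → ℂ}
    (hh : BddHol Ω h) {c : ℂ} (hc : c ≠ 0) (hper : ∀ a, IsPeriod Ω h a → ∃ r : ℝ, a = r * c)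
    (hnz : ∃ a, a ≠ 0 ∧ IsPeriod Ω h a) :
    ∃ μ : ℝ, 0 < μ ∧ IsEigenvalue Ω h ((starRingEnd ℂ) c / μ) := by
  obtain ⟨K, hK0, hK⟩ := hh.bd
  obtain ⟨R, hR⟩ := hΩb.subset_ball 0
  obtain ⟨b, hb⟩ := prim_of_periods hΩ hh.1 hc hper
  obtain ⟨a, ha0, γ, γ', hγ, hγ', hγΩ, hcl, ha⟩ := hnz
  have hd : DifferentiableOn ℂ (fun z => h z / c) Ω := hh.1.div_const c
  have hp1 : (∫ t in (0 : ℝ)..1, (fun z => h z / c) (γ t) * γ' t) ≠ 0 := by
    have e : ∫ t in (0 : ℝ)..1, (fun z => h z / c) (γ t) * γ' t =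
        c⁻¹ * ∫ t in (0 : ℝ)..1, h (γ t) * γ' t := by
      rw [← intervalIntegral.integral_const_mul]
      congr 1
      funext t
      show h (γ t) / c * γ' t = _
      rw [div_eq_mul_inv]; ring
    rw [e, ← ha]
    exact mul_ne_zero (inv_ne_zero hc) ha0
  obtain ⟨μ, hμ, u, f, h1, h2, h3, h4, h5, h6⟩ := Pool.Agent.TH340.SH.eig (h1 := fun z => h z / c)
    (K := K / ‖c‖) hΩ hd (by positivity)
    (fun z hz => by
      show ‖h z / c‖ ≤ _
      rw [norm_div]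
      exact div_le_div_of_nonneg_right (hK z hz) (norm_nonneg c))
    (R := |R| + 1) (by positivity)
    (hR.trans (Metric.ball_subset_ball (by linarith [le_abs_self R]))) hb hγ hγ' hγΩ hcl hp1
  refine ⟨μ, hμ, f, u, h2, h3, ⟨h1, h4, h5⟩, Filter.Eventually.of_forall fun z => ?_⟩
  show (starRingEnd ℂ) (h z) * u z = (starRingEnd ℂ) c / μ * f z
  rw [h6]
  show _ = (starRingEnd ℂ) c / μ * (μ * (starRingEnd ℂ) (h z / c) * u z)
  have hc' : (starRingEnd ℂ) c ≠ 0 := (map_ne_zero _).mpr hc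
  have hμ' : (μ : ℂ) ≠ 0 := Complex.ofReal_ne_zero.mpr hμ.ne'
  rw [map_div₀]
  field_simp

theorem generic (Ω : Set ℂ) (hΩ : IsOpen Ω) (hΩb : Bornology.IsBounded Ω) {h : ℂ → ℂ}
    (hh : BddHol Ω h) {c : ℂ} (hc : c ≠ 0) (hper : ∀ a, IsPeriod Ω h a → ∃ r : ℝ, a = r * c)
    (hnz : ∃ a, a ≠ 0 ∧ IsPeriod Ω h a) {k : ℂ → ℂ} (hk : BddHol Ω k) {m : ℕ} {κ : Fin m → ℂ → ℂ}
    (hκ : ∀ j, BddHol Ω (κ j)) :
    ∀ᵐ p : (Fin m → ℂ) × ℂ, ∃ lam : ℂ, lam ≠ 0 ∧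
      IsEigenvalue Ω (fun z => k z + p.2 * h z + ∑ j, p.1 j * κ j z) lam := by
  obtain ⟨K, hK0, hK⟩ := hh.bd
  obtain ⟨R, hR⟩ := hΩb.subset_ball 0
  obtain ⟨b, hb⟩ := prim_of_periods hΩ hh.1 hc hper
  obtain ⟨a, ha0, γ, γ', hγ, hγ', hγΩ, hcl, ha⟩ := hnz
  have hp1 : (∫ t in (0 : ℝ)..1, h (γ t) / c * γ' t) ≠ 0 := by
    have e : ∫ t in (0 : ℝ)..1, h (γ t) / c * γ' t =
        c⁻¹ * ∫ t in (0 : ℝ)..1, h (γ t) * γ' t := by
      rw [← intervalIntegral.integral_const_mul]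
      congr 1
      funext t
      rw [div_eq_mul_inv]; ring
    rw [e, ← ha]
    exact mul_ne_zero (inv_ne_zero hc) ha0
  obtain ⟨Kk, hKk0, hKk⟩ := hk.bd
  choose Kj hKj0 hKj using fun j => (hκ j).bd
  have hgen := Pool.Agent.TH340.SH.generic_fun hΩ (R := |R| + 1) (by positivity)
    (hR.trans (Metric.ball_subset_ball (by linarith [le_abs_self R]))) hh.1 hK0 hK hc hb hγ hγ' hγΩ hcl hp1
    hk.1 hKk0 hKk (fun j => (hκ j).1) hKj0 hKj
  filter_upwards [hgen] with p hp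
  obtain ⟨nu, hnu, f, u, h1, h2, h3, h4, h5, h6⟩ := hp
  exact ⟨nu, hnu, f, u, h1, h2, ⟨h3, h4, h5⟩, h6⟩

theorem bddHol_inv {Ω : Set ℂ} {w : ℂ} (hw : w ∉ closure Ω) : BddHol Ω (fun z => 1 / (z - w)) := by
  have h0 : (closure Ω)ᶜ ∈ nhds w := isClosed_closure.isOpen_compl.mem_nhds hw
  obtain ⟨r, hr, hb⟩ := Metric.mem_nhds_iff.mp h0
  have hd : ∀ z ∈ Ω, r ≤ ‖z - w‖ := by
    intro z hz
    by_contra hcon
    push Not at hcon
    exact hb (by rw [Metric.mem_ball, dist_eq_norm]; exact hcon) (subset_closure hz)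
  have hne : ∀ z ∈ Ω, z - w ≠ 0 := by
    intro z hz h1
    have := hd z hz
    rw [h1, norm_zero] at this
    linarith
  refine ⟨fun z hz => ?_, 1 / r, fun z hz => ?_⟩
  · exact ((differentiableAt_const 1).div (differentiableAt_id.sub_const w) (hne z hz)).differentiableWithinAt
  · rw [norm_div, norm_one]
    exact one_div_le_one_div_of_le hr (hd z hz)

theorem inv_period {Ω : Set ℂ} {w : ℂ} (hw : w ∉ closure Ω) {a : ℂ}
    (ha : IsPeriod Ω (fun z => 1 / (z - w)) a) : ∃ r : ℝ, a = r * Complex.I := by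
  obtain ⟨γ, γ', hγ, hγ', hγΩ, hcl, ha⟩ := ha
  have hne : ∀ t ∈ Icc (0 : ℝ) 1, γ t - w ≠ 0 := by
    intro t ht h1
    apply hw
    rw [← sub_eq_zero.mp h1]
    exact subset_closure (hγΩ t ht)
  have hγc : ContinuousOn γ (Icc 0 1) := fun t ht => (hγ t ht).continuousAt.continuousWithinAt
  have hcont : ContinuousOn (fun t => 1 / (γ t - w) * γ' t) (Icc 0 1) :=
    (continuousOn_const.div (hγc.sub continuousOn_const) hne).mul hγ'
  have hint : IntervalIntegrable (fun t => 1 / (γ t - w) * γ' t) volume 0 1 := by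
    apply ContinuousOn.intervalIntegrable
    rw [uIcc_of_le zero_le_one]; exact hcont
  have hre : a.re = 0 := by
    have e1 : a.re = ∫ t in (0 : ℝ)..1, (1 / (γ t - w) * γ' t).re := by
      rw [ha]
      have := Complex.reCLM.intervalIntegral_comp_comm hint
      exact this.symm
    rw [e1]
    have hb : ∀ t ∈ uIcc (0 : ℝ) 1, HasDerivAt (fun t => 1 / 2 * Real.log (Complex.normSq (γ t - w)))
        ((1 / (γ t - w) * γ' t).re) t := by
      intro t ht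
      rw [uIcc_of_le zero_le_one] at ht
      have h1 : HasDerivAt (fun t => (γ t - w).re) (γ' t).re t :=
        Complex.reCLM.hasFDerivAt.comp_hasDerivAt t ((hγ t ht).sub_const w)
      have h2 : HasDerivAt (fun t => (γ t - w).im) (γ' t).im t :=
        Complex.imCLM.hasFDerivAt.comp_hasDerivAt t ((hγ t ht).sub_const w)
      have h3 := (h1.mul h1).add (h2.mul h2)
      have hns : Complex.normSq (γ t - w) ≠ 0 := (Complex.normSq_pos.mpr (hne t ht)).ne'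
      have h4 : HasDerivAt (fun t => Complex.normSq (γ t - w)) _ t := h3
      have h5 := (h4.log hns).const_mul (1 / 2 : ℝ)
      refine h5.congr_deriv ?_
      rw [Complex.mul_re, one_div (γ t - w), Complex.inv_re, Complex.inv_im]
      field_simp
      ring
    rw [intervalIntegral.integral_eq_sub_of_hasDerivAt hb, hcl, sub_self]
    apply ContinuousOn.intervalIntegrable
    rw [uIcc_of_le zero_le_one]
    exact Complex.continuous_re.comp_continuousOn hcont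
  refine ⟨a.im, Complex.ext ?_ ?_⟩
  · simp [hre]
  · simp

/-- **Main result.** -/
theorem result (Ω : Set ℂ) (hΩ : IsOpen Ω) (hΩb : Bornology.IsBounded Ω) :
    (∀ (h : ℂ → ℂ) (c : ℂ), BddHol Ω h → c ≠ 0 → (∀ a, IsPeriod Ω h a → ∃ r : ℝ, a = r * c) →
      (∃ a, a ≠ 0 ∧ IsPeriod Ω h a) →
      (∃ μ₁ μ₂ : ℝ, 0 < μ₁ ∧ 0 < μ₂ ∧ IsEigenvalue Ω h ((starRingEnd ℂ) c / μ₁) ∧
        IsEigenvalue Ω h (-((starRingEnd ℂ) c / μ₂))) ∧
      ∀ (k : ℂ → ℂ), BddHol Ω k → ∀ (m : ℕ) (κ : Fin m → ℂ → ℂ), (∀ j, BddHol Ω (κ j)) →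
        ∀ᵐ p : (Fin m → ℂ) × ℂ, ∃ lam : ℂ, lam ≠ 0 ∧
          IsEigenvalue Ω (fun z => k z + p.2 * h z + ∑ j, p.1 j * κ j z) lam) ∧
    (∀ (w₀ : ℂ), w₀ ∉ closure Ω → (∃ a, a ≠ 0 ∧ IsPeriod Ω (fun z => 1 / (z - w₀)) a) →
      ∀ (k : ℂ → ℂ), BddHol Ω k → ∀ (m : ℕ) (w : Fin m → ℂ), (∀ j, w j ∉ closure Ω) →
        ∀ᵐ p : (Fin m → ℂ) × ℂ, ∃ lam : ℂ, lam ≠ 0 ∧
          IsEigenvalue Ω (fun z => k z + p.2 / (z - w₀) + ∑ j, p.1 j / (z - w j)) lam) := by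
  refine ⟨fun h c hh hc hper hnz => ⟨?_, fun k hk m κ hκ => generic Ω hΩ hΩb hh hc hper hnz hk hκ⟩, ?_⟩
  · obtain ⟨μ₁, h1, h2⟩ := half Ω hΩ hΩb hh hc hper hnz
    have hper' : ∀ a, IsPeriod Ω h a → ∃ r : ℝ, a = r * (-c) := by
      intro a ha
      obtain ⟨r, hr⟩ := hper a ha
      exact ⟨-r, by rw [hr]; push_cast; ring⟩
    obtain ⟨μ₂, h3, h4⟩ := half Ω hΩ hΩb hh (neg_ne_zero.mpr hc) hper' hnz
    refine ⟨μ₁, μ₂, h1, h3, h2, ?_⟩
    rw [map_neg, neg_div] at h4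
    exact h4
  · intro w₀ hw₀ hnz k hk m w hw
    have hg := generic Ω hΩ hΩb (bddHol_inv hw₀) Complex.I_ne_zero (fun a ha => inv_period hw₀ ha) hnz hk
      (fun j => bddHol_inv (hw j))
    filter_upwards [hg] with p hp
    obtain ⟨lam, hlam, hl⟩ := hp
    refine ⟨lam, hlam, ?_⟩
    have e : (fun z => k z + p.2 / (z - w₀) + ∑ j, p.1 j / (z - w j)) =
        fun z => k z + p.2 * (1 / (z - w₀)) + ∑ j, p.1 j * (1 / (z - w j)) := by
      funext z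
      simp only [mul_one_div]
    rw [e]
    exact hl

end Pool.Agent.Results.MP_f940ca_an.AlmostEveryPeriodVector
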